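import Pool.Agent.Lib.MP_71d0e6_al.HM

namespace Pool.Agent.Results.MP_71d0e6_al.HobbyMcKenzie

open FirstOrder FirstOrder.Language Pool.Agent.Lib.MP_71d0e6_al.HM

/-- Every algebra, finite or infinite, with a Hobby-McKenzie term has an idempotent 6-ary
Siggers term. -/
theorem result {L : Language} {A : Type*} [L.Structure A] {n : ℕ} (t : L.Term (Fin n))
    (idem : ∀ x : A, t.realize (fun _ => x) = x)
    (hm : ∀ I : Set (Fin n), I.Nonempty → ∃ σ τ : Fin n → ℕ,
      (∀ v : ℕ → A, t.realize (v ∘ σ) = t.realize (v ∘ τ)) ∧ σ '' I ≠ τ '' I) :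
    ∃ s : L.Term (Fin 6), (∀ x : A, s.realize (fun _ => x) = x) ∧
      ∀ x y z : A, s.realize ![x, y, x, z, y, z] = s.realize ![y, x, z, x, z, y] := by
  classical
  let E : Finset (Fin n) → Finset (Fin n) → Prop := fun J K =>
    ∀ b a : A, t.realize (tup J b a) = t.realize (tup K b a)
  have key : ∀ (I : Finset (Fin n)) (σ τ : Fin n → ℕ),
      (∀ v : ℕ → A, t.realize (v ∘ σ) = t.realize (v ∘ τ)) →
      ¬ τ '' I ⊆ σ '' I → ∃ J K, E J K ∧ I ⊆ J ∧ ¬ I ⊆ K := by
    intro I σ τ h hn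
    obtain ⟨c, ⟨i, hi, rfl⟩, hc⟩ := Set.not_subset.1 hn
    refine ⟨Finset.univ.filter fun j => σ j ≠ τ i, Finset.univ.filter fun j => τ j ≠ τ i,
      fun b a => ?_, fun j hj => ?_, fun hK => ?_⟩
    · have := h fun c => if c ≠ τ i then b else a
      convert this using 2 <;> funext j <;> simp [tup]
    · simp only [Finset.mem_filter, Finset.mem_univ, true_and]
      exact fun e => hc ⟨j, hj, e⟩
    · simpa using hK hi
  have hE : ∀ I : Finset (Fin n), I.Nonempty → ∃ J K, E J K ∧ I ⊆ J ∧ ¬ I ⊆ K := by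
    intro I hI
    obtain ⟨σ, τ, h, hne⟩ := hm I (Finset.coe_nonempty.2 hI)
    by_cases h1 : τ '' I ⊆ σ '' I
    · exact key I τ σ (fun v => (h v).symm) fun h2 => hne (h2.antisymm h1)
    · exact key I σ τ h h1
  let g : (Fin n → (Fin 3 → A) → A) → (Fin 3 → A) → A := fun p v => t.realize fun i => p i v
  let G : ((Fin 3 → A) → A) → ((Fin 3 → A) → A) → Prop := fun p q => ∃ s : L.Term (Fin 6),
    (∀ x : A, s.realize (fun _ => x) = x) ∧
    ∀ v, s.realize ![v 0, v 1, v 0, v 2, v 1, v 2] = p v ∧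
      s.realize ![v 1, v 0, v 2, v 0, v 2, v 1] = q v
  have hg : Mod E g := by
    refine ⟨fun a => funext fun v => idem _, fun J K h b a => funext fun v => ?_⟩
    have ht : ∀ J : Finset (Fin n), (fun i => tup J b a i v) = tup J (b v) (a v) := fun J => by
      funext i; unfold tup; split_ifs <;> rfl
    simp only [g, ht, h (b v) (a v)]
  have hG : Gr g G := by
    constructor
    · rintro p q ⟨s, h0, hs⟩
      refine ⟨s.relabel ![1, 0, 3, 2, 5, 4], fun x => ?_, fun v => ?_⟩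
      · rw [Term.realize_relabel]; exact h0 x
      · rw [Term.realize_relabel, Term.realize_relabel, ← (hs v).1, ← (hs v).2]
        constructor <;> congr 1 <;> funext i <;> fin_cases i <;> rfl
    · intro p q h
      choose s h0 hs using h
      refine ⟨t.subst s, fun x => ?_, fun v => ?_⟩
      · simp only [Term.realize_subst, h0, idem]
      · simp only [Term.realize_subst, g, fun i => (hs i v).1, fun i => (hs i v).2, and_self]
  have hR : Rich G 3 Set.univ := by
    refine ⟨fun i v => v i, fun _ => trivial, fun i j hij => ?_⟩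
    fin_cases i <;> fin_cases j <;> first
      | exact absurd rfl hij
      | exact ⟨.var 0, fun _ => rfl, fun _ => ⟨rfl, rfl⟩⟩
      | exact ⟨.var 1, fun _ => rfl, fun _ => ⟨rfl, rfl⟩⟩
      | exact ⟨.var 2, fun _ => rfl, fun _ => ⟨rfl, rfl⟩⟩
      | exact ⟨.var 3, fun _ => rfl, fun _ => ⟨rfl, rfl⟩⟩
      | exact ⟨.var 4, fun _ => rfl, fun _ => ⟨rfl, rfl⟩⟩
      | exact ⟨.var 5, fun _ => rfl, fun _ => ⟨rfl, rfl⟩⟩
  obtain ⟨p, s, h0, hs⟩ := loop_three hE _ g G hg hG hR
  exact ⟨s, h0, fun x y z => (hs ![x, y, z]).1.trans (hs ![x, y, z]).2.symm⟩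

end Pool.Agent.Results.MP_71d0e6_al.HobbyMcKenzie
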