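import Pool.Agent.Lib.MP_71d0e6_al.Compact

namespace Pool.Agent.Results.MP_71d0e6_al.PseudoSiggers

open FirstOrder FirstOrder.Language Pool.Agent.Lib.MP_71d0e6_al

/-- In a countable model-complete core with an oligomorphic automorphism group, a 6-ary
pseudo-Siggers polymorphism yields a 4-ary pseudo-Siggers polymorphism. -/
theorem result {L : Language} {M : Type*} [L.Structure M] [Countable M]
    (olig : ∀ n : ℕ, ∃ S : Set (Fin n → M), S.Finite ∧
      ∀ x : Fin n → M, ∃ y ∈ S, ∃ g : M ≃[L] M, ∀ i, g (y i) = x i)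
    (core : ∀ (f : M →[L] M) (F : Finset M), ∃ g : M ≃[L] M, ∀ x ∈ F, f x = g x)
    (h6 : ∃ (s : (Fin 6 → M) → M) (u v : M →[L] M), IsPolymorphism L s ∧
      ∀ x y z, u (s ![x, y, x, z, y, z]) = v (s ![y, x, z, x, z, y])) :
    ∃ (s : (Fin 4 → M) → M) (u v : M →[L] M), IsPolymorphism L s ∧
      ∀ r a e, u (s ![r, a, r, e]) = v (s ![a, r, e, a]) := by
  rcases isEmpty_or_nonempty M with hM | hM
  · exact ⟨_, Hom.id L M, Hom.id L M, IsPolymorphism.proj 0, fun r => isEmptyElim r⟩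
  obtain ⟨s, u, v, hs, hid⟩ := h6
  obtain ⟨t, u', v', ht, h⟩ := global_of_local olig
    (fun d : M × M × M => (![d.1, d.2.1, d.1, d.2.2] : Fin 4 → M))
    (fun d => ![d.2.1, d.1, d.2.2, d.2.1]) fun m d =>
      local_siggers olig core s u v hs hid m (fun n => (d n).1) (fun n => (d n).2.1)
        (fun n => (d n).2.2)
  exact ⟨t, u', v', ht, fun r a e => h (r, a, e)⟩

end Pool.Agent.Results.MP_71d0e6_al.PseudoSiggers
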