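import Pool.Agent.Lib.MP_71d0e6_al.SD.Step
import Pool.Agent.Lib.MP_71d0e6_al.SD.One
import Pool.Agent.Lib.MP_71d0e6_al.SD.Two

namespace Pool.Agent.Results.MP_71d0e6_al.SDMeetStrong

open FirstOrder FirstOrder.Language Pool.Agent.Lib.MP_71d0e6_al.SD

universe u v w

/-- Congruence meet-semidistributivity of the variety generated by `A` is equivalent to one
fixed finite system of identities in one term: a strong Maltsev condition. -/
theorem result (k : ℕ) (hk : 2 ^ 60 ≤ k) (L : FirstOrder.Language.{u, v}) (A : Type w)
    [L.Structure A] :
    (∀ (B : Type w) [L.Structure B], InVariety L A B → MeetSD L B) ↔ W L A k := by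
  refine ⟨fun h => (part_one h).elim (descent hk), fun ⟨s, h1, h2⟩ B _ hB =>
    part_two (k := k) (by omega) ⟨s, fun x => ?_, fun r x y => ?_⟩⟩
  · have := hB 1 (s.relabel fun _ => 0) (.var 0) (fun a => by
      rw [Term.realize_relabel]
      exact h1 (a 0)) fun _ => x
    rwa [Term.realize_relabel] at this
  · have := hB 2 (s.relabel fun p => if r ∈ p.1.1 then 1 else 0)
      (s.relabel fun p => if r ∈ p.1.2 then 1 else 0) (fun a => by
        rw [Term.realize_relabel, Term.realize_relabel]
        convert h2 r (a 0) (a 1) using 2 <;> funext p <;> simp only [Function.comp, apply_ite a])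
      ![x, y]
    rw [Term.realize_relabel, Term.realize_relabel] at this
    convert this using 2 <;> funext p <;> simp only [Function.comp] <;> split_ifs <;> rfl

end Pool.Agent.Results.MP_71d0e6_al.SDMeetStrong
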