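import Pool.Agent.Lib.MP_71d0e6_al.WD.Step
import Pool.Agent.Lib.MP_71d0e6_al.WD.One
import Pool.Agent.Lib.MP_71d0e6_al.WD.Two

namespace Pool.Agent.Results.MP_71d0e6_al.WeakDiffStrong

open FirstOrder FirstOrder.Language Pool.Agent.Lib.MP_71d0e6_al.WD

universe u v w

/-- The variety generated by `A` has a weak difference term if and only if `A` satisfies one
fixed finite system of identities in one term: a strong Maltsev condition. -/
theorem result (k : ℕ) (hk : 2 ^ 60 ≤ k) (L : FirstOrder.Language.{u, v}) (A : Type w)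
    [L.Structure A] : (∃ d : L.Term (Fin 3), IsWeakDiff L A d) ↔ WDiff L A k :=
  ⟨fun ⟨_, h⟩ => (part_one h).elim (descent hk), part_two (by omega)⟩

end Pool.Agent.Results.MP_71d0e6_al.WeakDiffStrong
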